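import Mathlib
import Pool.Agent.H99.WeakKamDefs

set_option autoImplicit false

namespace Pool.Agent.Results.MP_e5a79a_an.Counter

open Filter Topology Real Pool.Agent.H99.WeakKam

/-- momentum profile -/
noncomputable def P (ε x : ℝ) : ℝ := √(sin (π * x) ^ 2 + ε ^ 2)

/-- its mean -/
noncomputable def B (ε : ℝ) : ℝ := ∫ s in (0 : ℝ)..1, P ε s

/-- shifted pendulum -/
noncomputable def G (b x p : ℝ) : ℝ := (p + b) ^ 2 / 2 - sin (π * x) ^ 2 / 2

/-- classical solution -/
noncomputable def w (ε x : ℝ) : ℝ := ∫ s in (0 : ℝ)..x, (P ε s - B ε)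

lemma P_cont (ε : ℝ) : Continuous (P ε) := by unfold P; fun_prop

lemma sin_per : Function.Periodic (fun x => sin (π * x) ^ 2) 1 := fun x => by
  simp only [mul_add, mul_one, sin_add_pi, neg_sq]

lemma P_per (ε : ℝ) : Function.Periodic (P ε) 1 := fun x => by
  have := sin_per x
  simp only at this
  rw [P, P, this]

lemma P_sq (ε x : ℝ) : P ε x ^ 2 = sin (π * x) ^ 2 + ε ^ 2 := sq_sqrt (by positivity)

lemma P_nonneg (ε x : ℝ) : 0 ≤ P ε x := sqrt_nonneg _

lemma P_ge (ε x : ℝ) : ε ≤ P ε x := le_sqrt_of_sq_le (by nlinarith [sq_nonneg (sin (π * x))])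

lemma P_diff {ε δ : ℝ} (h0 : 0 ≤ ε) (h : ε ≤ δ) (x : ℝ) :
    P ε x ≤ P δ x ∧ P δ x ≤ P ε x + (δ - ε) := by
  refine ⟨sqrt_le_sqrt (by nlinarith), ?_⟩
  apply abs_le_of_sq_le_sq' _ (by linarith [P_nonneg ε x]) |>.2
  nlinarith [P_sq ε x, P_sq δ x, P_ge ε x]

lemma P_le (δ : ℝ) (h : 0 ≤ δ) (x : ℝ) : P δ x ≤ 1 + δ := by
  apply abs_le_of_sq_le_sq' _ (by linarith) |>.2
  nlinarith [P_sq δ x, sin_sq_le_one (π * x)]

lemma w_deriv (ε x : ℝ) : HasDerivAt (w ε) (P ε x - B ε) x :=
  (((P_cont ε).sub continuous_const).integral_hasStrictDerivAt 0 x).hasDerivAt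

lemma w_deriv' (ε : ℝ) : deriv (w ε) = fun x => P ε x - B ε := funext fun x => (w_deriv ε x).deriv

lemma w_smooth (ε : ℝ) : ContDiff ℝ 1 (w ε) := contDiff_one_iff_deriv.2
  ⟨fun x => (w_deriv ε x).differentiableAt, by rw [w_deriv']; exact (P_cont ε).sub continuous_const⟩

lemma w_per (ε : ℝ) : Function.Periodic (w ε) 1 := fun x => by
  have hc : Continuous fun s => P ε s - B ε := (P_cont ε).sub continuous_const
  have hp : Function.Periodic (fun s => P ε s - B ε) 1 := fun s => by simp only [P_per ε s]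
  rw [w, w, ← intervalIntegral.integral_add_adjacent_intervals (b := x) (hc.intervalIntegrable _ _)
    (hc.intervalIntegrable _ _), hp.intervalIntegral_add_eq x 0,
    intervalIntegral.integral_sub ((P_cont ε).intervalIntegrable 0 (0 + 1)) (by simp)]
  simp [B]

lemma G_w (ε x : ℝ) : G (B ε) x (P ε x - B ε) = ε ^ 2 / 2 := by
  rw [G, sub_add_cancel, P_sq]; ring

lemma w_sol (ε : ℝ) : IsSol (G (B ε)) (ε ^ 2 / 2) (w ε) := by
  refine ⟨(w_smooth ε).continuous, w_per ε, fun φ hφ y => ?_⟩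
  have h1 := (w_deriv ε y).sub (hφ.differentiable one_ne_zero y).hasDerivAt
  constructor <;> intro h <;> rw [← sub_eq_zero.1 (h.hasDerivAt_eq_zero h1), G_w]

lemma uniq (ε k : ℝ) (v : ℝ → ℝ) (hv : IsSol (G (B ε)) k v) :
    k = ε ^ 2 / 2 ∧ ∃ C, ∀ x, v x = w ε x + C := by
  obtain ⟨hc, hp, h⟩ := hv
  have fc : Continuous fun z => v z - w ε z := hc.sub (w_smooth ε).continuous
  have fp : Function.Periodic (fun z => v z - w ε z) 1 := hp.sub (w_per ε)
  have hk : k = ε ^ 2 / 2 := by
    obtain ⟨a, -, ha⟩ := (isCompact_Icc (a := (0 : ℝ)) (b := 1)).exists_isMaxOn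
      ⟨0, by simp⟩ fc.continuousOn
    obtain ⟨b, -, hb⟩ := (isCompact_Icc (a := (0 : ℝ)) (b := 1)).exists_isMinOn
      ⟨0, by simp⟩ fc.continuousOn
    have h1 := (h _ (w_smooth ε) a).1 (Eventually.of_forall fun z => by
      obtain ⟨y, hy, e⟩ := fp.exists_mem_Ico₀ one_pos z
      simp only [e]
      exact ha (Set.Ico_subset_Icc_self hy))
    have h2 := (h _ (w_smooth ε) b).2 (Eventually.of_forall fun z => by
      obtain ⟨y, hy, e⟩ := fp.exists_mem_Ico₀ one_pos z
      simp only [e]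
      exact hb (Set.Ico_subset_Icc_self hy))
    rw [w_deriv', G_w] at h1 h2
    linarith
  have key : ∀ a y, v y - w ε y ≤ v a - w ε a := by
    intro a y
    obtain ⟨y', hy, e⟩ := fp.exists_mem_Ico one_pos y a
    rw [e]
    refine le_of_forall_pos_le_add fun η hη => ?_
    have gc : Continuous fun z => v z - (w ε z + η * z) := by
      have := (w_smooth ε).continuous
      fun_prop
    obtain ⟨z, hz, hm⟩ := (isCompact_Icc (a := a) (b := a + 1)).exists_isMaxOn
      ⟨a, by simp⟩ gc.continuousOn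
    have h1 : v y' - (w ε y' + η * y') ≤ v z - (w ε z + η * z) := hm (Set.Ico_subset_Icc_self hy)
    have h2 : v a - (w ε a + η * a) ≤ v z - (w ε z + η * z) := hm (by simp)
    rcases hz.1.eq_or_lt with rfl | h3
    · nlinarith [hy.2]
    rcases hz.2.eq_or_lt with rfl | h4
    · rw [hp, w_per] at h2
      nlinarith
    · exfalso
      have h5 := (h (fun z => w ε z + η * z) ((w_smooth ε).add (by fun_prop)) z).1
        (hm.isLocalMax (Icc_mem_nhds h3 h4))
      have h6 : HasDerivAt (fun z => w ε z + η * z) (P ε z - B ε + η * 1) z :=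
        (w_deriv ε z).add ((hasDerivAt_id z).const_mul η)
      rw [h6.deriv, hk, G] at h5
      nlinarith [P_sq ε z, P_nonneg ε z]
  exact ⟨hk, v 0 - w ε 0, fun x => by linarith [key 0 x, key x 0]⟩

lemma lag_eq (b x v : ℝ) : lag (G b) x v = v ^ 2 / 2 - b * v + sin (π * x) ^ 2 / 2 := by
  refine IsGreatest.csSup_eq ⟨⟨v - b, by simp only [G]; ring⟩, ?_⟩
  rintro _ ⟨p, rfl⟩
  simp only [G]
  nlinarith [sq_nonneg (p + b - v)]

lemma act_eq (ε t : ℝ) (γ : ℝ → ℝ) (hγ : ContDiff ℝ 1 γ) (m : ℤ) (h : γ t = γ 0 + m) :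
    ∫ s in (0 : ℝ)..t, (lag (G (B ε)) (γ s) (deriv γ s) + ε ^ 2 / 2) =
      ∫ s in (0 : ℝ)..t, (deriv γ s - P ε (γ s)) ^ 2 / 2 := by
  have c1 := hγ.continuous
  have c2 := hγ.continuous_deriv_one
  have c3 := P_cont ε
  have h1 : ∫ s in (0 : ℝ)..t, (P ε (γ s) - B ε) * deriv γ s = w ε (γ t) - w ε (γ 0) :=
    intervalIntegral.integral_eq_sub_of_hasDerivAt (f := fun s => w ε (γ s))
      (fun s _ => (w_deriv ε (γ s)).comp s (hγ.differentiable one_ne_zero s).hasDerivAt)
      (Continuous.intervalIntegrable (by fun_prop) _ _)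
  have h2 := (w_per ε).int_mul m (γ 0)
  rw [mul_one] at h2
  rw [h, h2, sub_self] at h1
  refine Eq.trans ?_ ((congrArg (_ + ·) h1).trans (add_zero _))
  rw [← intervalIntegral.integral_add (Continuous.intervalIntegrable (by fun_prop) _ _)
      (Continuous.intervalIntegrable (by fun_prop) _ _)]
  congr 1
  funext s
  rw [lag_eq]
  linarith [P_sq ε (γ s)]

lemma curve (δ : ℝ) (hδ : 0 < δ) (x : ℝ) (m : ℕ) : ∃ (γ : ℝ → ℝ) (t : ℝ),
    (∀ s, HasDerivAt γ (P δ (γ s)) s) ∧ γ 0 = x ∧ γ t = x + m ∧ m / (1 + δ) ≤ t := by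
  have hP : ∀ s, 0 < P δ s := fun s => hδ.trans_le (P_ge δ s)
  have hc : Continuous fun s => (P δ s)⁻¹ := (P_cont δ).inv₀ fun s => (hP s).ne'
  let T : ℝ → ℝ := fun y => ∫ s in x..y, (P δ s)⁻¹
  have hT : ∀ y, HasDerivAt T (P δ y)⁻¹ y := fun y => (hc.integral_hasStrictDerivAt x y).hasDerivAt
  have hT0 : T x = 0 := by simp [T]
  have hm : StrictMono T := strictMono_of_deriv_pos fun y => by
    rw [(hT y).deriv]; exact inv_pos.2 (hP y)
  have hd : ∀ y, HasDerivAt (fun y => T y - y / (1 + δ)) ((P δ y)⁻¹ - 1 / (1 + δ)) y := fun y =>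
    (hT y).sub ((hasDerivAt_id y).div_const _)
  have hm2 : Monotone fun y => T y - y / (1 + δ) :=
    monotone_of_deriv_nonneg (fun y => (hd y).differentiableAt) fun y => by
      rw [(hd y).deriv, sub_nonneg, one_div]
      exact inv_anti₀ (hP y) (P_le δ hδ.le y)
  have hTc : Continuous T := continuous_iff_continuousAt.2 fun y => (hT y).continuousAt
  have hs : Function.Surjective T := by
    apply hTc.surjective
    · refine tendsto_atTop_mono' _ (f₁ := fun y => y / (1 + δ) + -(x / (1 + δ))) ?_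
        (tendsto_atTop_add_const_right _ _ (tendsto_id.atTop_div_const (by linarith)))
      filter_upwards [eventually_ge_atTop x] with y hy
      have := hm2 hy
      simp only [hT0] at this
      linarith
    · refine tendsto_atBot_mono' _ (f₁ := fun y => y / (1 + δ) + -(x / (1 + δ))) ?_
        (tendsto_atBot_add_const_right _ _ (tendsto_id.atBot_div_const (r := 1 + δ) (by linarith)))
      filter_upwards [eventually_le_atBot x] with y hy
      have := hm2 hy
      simp only [hT0] at this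
      linarith
  let e := hm.orderIsoOfSurjective T hs
  refine ⟨e.symm, T (x + m), fun s => ?_, ?_, e.symm_apply_apply _, ?_⟩
  · have := HasDerivAt.of_local_left_inverse e.symm.continuous.continuousAt (hT (e.symm s))
      (inv_pos.2 (hP _)).ne' (Eventually.of_forall e.apply_symm_apply)
    rwa [inv_inv] at this
  · rw [← hT0]; exact e.symm_apply_apply _
  · have := hm2 (show x ≤ x + m by linarith [Nat.cast_nonneg (α := ℝ) m])
    simp only [hT0, add_div] at this
    linarith

lemma aub (ε : ℝ) (hε : 0 ≤ ε) : aubry (G (B ε)) (ε ^ 2 / 2) = Set.univ := by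
  refine Set.eq_univ_of_forall fun x => le_antisymm ?_ ?_
  · refine EReal.le_of_forall_lt_iff_le.1 fun η hη => ?_
    have hη' : 0 < η := EReal.coe_pos.1 hη
    refine liminf_le_of_frequently_le (frequently_atTop.2 fun T0 => ?_)
    obtain ⟨m, hm⟩ := exists_nat_gt (max 0 (T0 * (2 + ε)))
    have hm0 : (0 : ℝ) < m := (le_max_left _ _).trans_lt hm
    have hm1 := (le_max_right _ _).trans_lt hm
    set d := min 1 (η / m) with hd
    have hd0 : 0 < d := lt_min one_pos (by positivity)
    have hd1 : d ≤ 1 := min_le_left _ _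
    have hd2 : d * m ≤ η := (le_div_iff₀ hm0).1 (min_le_right _ _)
    obtain ⟨γ, t, h1, h2, h3, h4⟩ := curve (ε + d) (by linarith) x m
    have h5 : deriv γ = fun s => P (ε + d) (γ s) := funext fun s => (h1 s).deriv
    have c1 : Continuous γ := continuous_iff_continuousAt.2 fun s => (h1 s).continuousAt
    have c2 := P_cont (ε + d)
    have c3 := P_cont ε
    have hγ : ContDiff ℝ 1 γ := contDiff_one_iff_deriv.2
      ⟨fun s => (h1 s).differentiableAt, by rw [h5]; fun_prop⟩
    have h6 : m / (2 + ε) ≤ t := le_trans (div_le_div_of_nonneg_left hm0.le (by linarith) (by linarith)) h4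
    have ht : 0 ≤ t := le_trans (by positivity) h6
    refine ⟨t, le_trans ((le_div_iff₀ (by linarith)).2 hm1.le) h6, ?_⟩
    refine iInf₂_le_of_le γ ⟨hγ, h2, m, by simpa using h3⟩ (EReal.coe_le_coe ?_)
    rw [act_eq ε t γ hγ m (by rw [h2]; simpa using h3), h5]
    have h7 : ∫ s in (0 : ℝ)..t, P (ε + d) (γ s) = γ t - γ 0 :=
      intervalIntegral.integral_eq_sub_of_hasDerivAt (fun s _ => h1 s)
        (Continuous.intervalIntegrable (by fun_prop) _ _)
    refine (intervalIntegral.integral_mono_on (g := fun s => d * P (ε + d) (γ s)) ht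
      (Continuous.intervalIntegrable (by fun_prop) _ _)
      (Continuous.intervalIntegrable (by fun_prop) _ _) fun s _ => ?_).trans ?_
    · obtain ⟨a1, a2⟩ := P_diff hε (show ε ≤ ε + d by linarith) (γ s)
      nlinarith [P_nonneg ε (γ s)]
    · rw [intervalIntegral.integral_const_mul, h7, h2, h3]
      linarith
  · refine le_liminf_of_le (h := ?_)
    filter_upwards [eventually_ge_atTop 0] with t ht
    refine le_iInf₂ fun γ ⟨h1, h2, m, h3⟩ => EReal.coe_nonneg.2 ?_
    rw [act_eq ε t γ h1 m (by rw [h2, h3])]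
    exact intervalIntegral.integral_nonneg ht fun s _ => by positivity

/-- A smooth Tonelli Hamiltonian on the circle (a shifted pendulum) with full Aubry set and
unique viscosity solution for c = 0, and a sequence c_k tending to 0 along which the Lipschitz
norm of Dv - Du on the projected Aubry set stays at least 1. -/
theorem result : ∃ (H : ℝ → ℝ → ℝ) (a0 : ℝ) (u : ℝ → ℝ),
    ContDiff ℝ ⊤ (fun q : ℝ × ℝ => H q.1 q.2) ∧ (∀ p, Function.Periodic (fun x => H x p) 1) ∧
    (∀ x p, deriv (deriv (H x)) p = 1) ∧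
    (∀ M : ℝ, ∃ R : ℝ, ∀ x p, R ≤ |p| → M * |p| ≤ H x p) ∧
    IsSol H a0 u ∧ (∀ k v, IsSol H k v → k = a0 ∧ ∃ C, ∀ x, v x = u x + C) ∧
    aubry H a0 = Set.univ ∧
    ∃ c a : ℕ → ℝ, Tendsto c atTop (𝓝 0) ∧ ∀ j, (∃ v, IsSol (shift H (c j)) (a j) v) ∧
      ∀ k v, IsSol (shift H (c j)) k v → k = a j ∧ Differentiable ℝ v ∧ Differentiable ℝ u ∧
        1 ≤ lipNorm (fun x => deriv v x - deriv u x) (aubry (shift H (c j)) (a j)) := by
  have hs : ∀ ε, shift (G (B 0)) (B 0 - B ε) = G (B ε) := fun ε => by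
    funext x p
    simp only [shift, G]
    ring
  refine ⟨G (B 0), 0 ^ 2 / 2, w 0, by unfold G; fun_prop, fun p x => ?_, fun x p => ?_,
    fun M => ⟨2 * |M| + 2 * |B 0| + 1, fun x p hp => ?_⟩, w_sol 0, uniq 0, aub 0 le_rfl,
    fun j => B 0 - B (1 / (j + 1)), fun j => (1 / (j + 1)) ^ 2 / 2, ?_, fun j => ?_⟩
  · have := sin_per x
    simp only at this
    simp only [G, this]
  · have : deriv (G (B 0) x) = fun p => p + B 0 := funext fun p => by
      have := ((((hasDerivAt_id p).add_const (B 0)).pow 2).div_const 2).sub_const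
        (sin (π * x) ^ 2 / 2)
      exact (this.congr_deriv (by simp)).deriv
    rw [this]
    simp
  · have h1 := le_abs_self M
    have h2 := abs_nonneg M
    have h3 := abs_nonneg (B 0)
    have h4 := neg_abs_le (p * B 0)
    rw [abs_mul] at h4
    rw [G]
    nlinarith [sin_sq_le_one (π * x), sq_abs p, sq_nonneg (B 0), abs_nonneg p]
  · refine squeeze_zero_norm (fun j => ?_) tendsto_one_div_add_atTop_nhds_zero_nat
    rw [B, B, ← intervalIntegral.integral_sub ((P_cont _).intervalIntegrable _ _)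
      ((P_cont _).intervalIntegrable _ _)]
    refine (intervalIntegral.norm_integral_le_of_norm_le_const (C := 1 / (j + 1))
      fun s _ => ?_).trans (by simp)
    obtain ⟨a1, a2⟩ := P_diff le_rfl (show (0 : ℝ) ≤ 1 / (j + 1) by positivity) s
    rw [norm_eq_abs, abs_le]
    constructor <;> linarith [show (0 : ℝ) ≤ 1 / (j + 1) by positivity]
  · simp only [hs]
    have e0 : (0 : ℝ) < 1 / (j + 1) := by positivity
    have e1 : (1 : ℝ) / (j + 1) ≤ 1 := by
      rw [div_le_one (by positivity)]; linarith [Nat.cast_nonneg (α := ℝ) j]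
    generalize (1 : ℝ) / (j + 1) = ε at *
    refine ⟨⟨_, w_sol ε⟩, fun k v hv => ?_⟩
    obtain ⟨hk, C, hC⟩ := uniq ε k v hv
    have hd : ∀ x, HasDerivAt v (P ε x - B ε) x := fun x => by
      rw [funext hC]; exact (w_deriv ε x).add_const C
    refine ⟨hk, fun x => (hd x).differentiableAt, fun x => (w_deriv 0 x).differentiableAt, ?_⟩
    rw [aub ε e0.le]
    have hc : cdist (ε / 4) 0 = ε / 4 := by
      rw [cdist, AddCircle.coe_zero, dist_zero_right,
        (AddCircle.norm_coe_eq_abs_iff 1 one_ne_zero).2, abs_of_pos (by linarith)]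
      rw [abs_of_pos (by linarith), abs_one]
      linarith
    refine le_add_left (le_iSup₂_of_le (ε / 4) trivial (le_iSup₂_of_le 0 trivial
      (le_iSup_of_le (by rw [hc]; linarith) ?_)))
    rw [ENNReal.one_le_ofReal, hc, le_div_iff₀ (by linarith), one_mul]
    simp only [(hd _).deriv, w_deriv']
    have h1 : ε / 2 ≤ sin (π * (ε / 4)) := by
      have := mul_le_sin (x := π * (ε / 4)) (by positivity) (by nlinarith [pi_pos])
      rwa [show 2 / π * (π * (ε / 4)) = ε / 2 by field_simp; ring] at this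
    have h2 : sin (π * (ε / 4)) ≤ ε := (sin_le (by positivity)).trans (by nlinarith [pi_le_four])
    have h3 : P 0 (ε / 4) = sin (π * (ε / 4)) := by
      simp only [P]; rw [zero_pow two_ne_zero, add_zero, sqrt_sq (by linarith)]
    have h4 : P ε 0 = ε := by simp [P, sqrt_sq e0.le]
    have h5 : P 0 0 = 0 := by simp [P]
    have h6 : P ε (ε / 4) ≤ ε + sin (π * (ε / 4)) / 2 := by
      apply abs_le_of_sq_le_sq' _ (by linarith) |>.2
      nlinarith [P_sq ε (ε / 4)]
    rw [h3, h4, h5]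
    exact le_trans (by linarith) (neg_le_abs _)

end Pool.Agent.Results.MP_e5a79a_an.Counter
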